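import Pool.Agent.T6.H59.NN.Final

/-!
# Q1: the mean number of uncovered vertices grows like a power of `n`

For every dimension `d ≥ 2 ^ 20` the expected number of uncovered vertices of the random nearest
neighbour tree `T_n` on the torus is at least `c * n ^ γ` for some `c > 0` and `γ > 0` and every
`n ≥ 1`, hence it is not bounded by `C * (log n) ^ k` for any constants `C` and `k`.
-/

set_option autoImplicit false

namespace Pool.Agent.Results.MP_959362_pr.UncoveredMeanPower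

open MeasureTheory Filter Pool.Agent.T6.H59.NN

theorem result (d : ℕ) (hd : 2 ^ 20 ≤ d) :
    (∀ n : ℕ, Integrable (fun x => ((unc x n).card : ℝ)) (unif d)) ∧
    (∃ c : ℝ, 0 < c ∧ ∃ γ : ℝ, 0 < γ ∧ ∀ n : ℕ, 1 ≤ n →
      c * (n : ℝ) ^ γ ≤ ∫ x, ((unc x n).card : ℝ) ∂(unif d)) ∧
    (∀ C k : ℝ, ∃ n : ℕ, 2 ≤ n ∧
      C * Real.log n ^ k < ∫ x, ((unc x n).card : ℝ) ∂(unif d)) := by
  obtain ⟨h1, ⟨c, hc, γ, hγ, h2⟩, h3, -⟩ := main hd
  refine ⟨h1, ⟨c, hc, γ, hγ, h2⟩, fun C k => ?_⟩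
  obtain ⟨n, hn, hn2⟩ := ((h3 C k).and (eventually_ge_atTop 2)).exists
  exact ⟨n, hn2, hn⟩

end Pool.Agent.Results.MP_959362_pr.UncoveredMeanPower
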