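import Pool.Agent.T6.H59.NN.Final

/-!
# Q2: the number of uncovered vertices is not polylogarithmic with probability `1 - 1 / n`

For every dimension `d ≥ 2 ^ 20` and all constants `C` and `k`, for all large `n`, the probability
that the random nearest neighbour tree `T_n` on the torus has at most `C * (log n) ^ k` uncovered
vertices is less than `1 - 1 / n`.
-/

set_option autoImplicit false

namespace Pool.Agent.Results.MP_959362_pr.UncoveredNotWhpPolylog

open MeasureTheory Filter Pool.Agent.T6.H59.NN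

theorem result (d : ℕ) (hd : 2 ^ 20 ≤ d) (C k : ℝ) : ∃ n₀ : ℕ, 2 ≤ n₀ ∧ ∀ n : ℕ, n₀ ≤ n →
    (unif d).real {x | ((unc x n).card : ℝ) ≤ C * Real.log n ^ k} < 1 - 1 / (n : ℝ) := by
  obtain ⟨n₀, hn₀⟩ := eventually_atTop.mp ((main hd).2.2.2 C k)
  exact ⟨max n₀ 2, le_max_right _ _, fun n hn => hn₀ n ((le_max_left _ _).trans hn)⟩

end Pool.Agent.Results.MP_959362_pr.UncoveredNotWhpPolylog
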